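import Pool.Agent.Helper46.WP.St
import Pool.Agent.Helper19.W.SLO

/-!
# Lemma W in dimension `g + k`, module SLOP: slow variation of the local entropies
-/

set_option autoImplicit false

namespace Pool.Agent.Helper46.WP

open Finset Pool.Agent.Helper69.RK Pool.Agent.Helper61.GL Pool.Agent.Helper46.WF
open Pool.Agent.Helper92.W (fl srp DL floor_two cel_step cw_mul)

theorem cel_frP {p : ℕ} (ρ l : ℕ) (v : Fin p → ℝ) (i : Fin p) :
    cel ρ (frP l v) i = cel (l + ρ) v i - 2 ^ ρ * cel l v i := by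
  show ⌊(2 : ℝ) ^ ρ * Int.fract ((2 : ℝ) ^ l * v i)⌋ = ⌊(2 : ℝ) ^ (l + ρ) * v i⌋ -
    2 ^ ρ * ⌊(2 : ℝ) ^ l * v i⌋
  have e : (2 : ℝ) ^ ρ * Int.fract ((2 : ℝ) ^ l * v i) = (2 : ℝ) ^ (l + ρ) * v i -
      ((2 ^ ρ * ⌊(2 : ℝ) ^ l * v i⌋ : ℤ) : ℝ) := by
    unfold Int.fract
    push_cast
    ring
  rw [e, Int.floor_sub_intCast]

section slo

variable {Ω : Type} [Fintype Ω] {p : ℕ}

/-- the local entropy through the cells of `X` -/
theorem eLP_eq (μ : Ω → ℝ) (X : Ω → Fin p → ℝ) (ρ l : ℕ) (ω : Ω) :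
    eLP μ X ρ l ω = Hh (cw μ (fun ω' => cel l (X ω')) ω) (fun ω' => cel (l + ρ) (X ω')) := by
  unfold eLP lwP Hh
  apply ch_congr_left
  intro a b ha hb _
  have h1 : cel l (X a) = cel l (X b) :=
    (cw_ne_zero μ _ ha).1.trans (cw_ne_zero μ _ hb).1.symm
  constructor
  · intro h
    funext i
    have h2 : cel ρ (frP l (X a)) i = cel ρ (frP l (X b)) i := congrFun h i
    rw [cel_frP, cel_frP, h1] at h2
    linarith
  · intro h
    funext i
    show cel ρ (frP l (X a)) i = cel ρ (frP l (X b)) i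
    rw [cel_frP, cel_frP, h1]
    have h3 : cel (l + ρ) (X a) = cel (l + ρ) (X b) := h
    rw [h3]

theorem eLP_congr (μ : Ω → ℝ) (X : Ω → Fin p → ℝ) (ρ l : ℕ) {ω ω' : Ω}
    (h : cel l (X ω) = cel l (X ω')) : eLP μ X ρ l ω = eLP μ X ρ l ω' := by
  unfold eLP lwP
  have : cw μ (fun ω' => cel l (X ω')) ω = cw μ (fun ω' => cel l (X ω')) ω' := by
    funext ω''
    exact cw_congr μ _ h ω''
  rw [this]

theorem eLP_nonneg (μ : Ω → ℝ) (hμ : ∀ ω, 0 ≤ μ ω) (X : Ω → Fin p → ℝ) (ρ l : ℕ) (ω : Ω) :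
    0 ≤ eLP μ X ρ l ω := Hh_nonneg _ (cw_nonneg μ _ hμ ω) _

theorem eLP_le (μ : Ω → ℝ) (hμ : ∀ ω, 0 ≤ μ ω) (X : Ω → Fin p → ℝ) (ρ l : ℕ) (ω : Ω)
    (h0 : μ ω ≠ 0) : eLP μ X ρ l ω ≤ p * ρ := by
  have h1 := st_E3.2 Ω Unit p (lwP μ X l ω) (fun ω' => cel ρ (frP l (X ω'))) (fun _ => ())
    (2 ^ ρ - 1) (cw_nonneg μ _ hμ ω) (by
      have : (1 : ℝ) ≤ 2 ^ ρ := one_le_pow₀ (by norm_num)
      linarith) (fun a b _ _ _ i => by
      have hb : ∀ x : Fin p → ℝ, (0 : ℝ) ≤ (cel ρ (frP l x) i : ℝ) ∧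
          (cel ρ (frP l x) i : ℝ) ≤ 2 ^ ρ - 1 := by
        intro x
        have f0 : 0 ≤ Int.fract ((2 : ℝ) ^ l * x i) := Int.fract_nonneg _
        have f1 : Int.fract ((2 : ℝ) ^ l * x i) < 1 := Int.fract_lt_one _
        have g0 : (0 : ℤ) ≤ cel ρ (frP l x) i := by
          show (0 : ℤ) ≤ ⌊(2 : ℝ) ^ ρ * Int.fract ((2 : ℝ) ^ l * x i)⌋
          rw [Int.le_floor]
          push_cast
          positivity
        have g1 : cel ρ (frP l x) i < 2 ^ ρ := by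
          show ⌊(2 : ℝ) ^ ρ * Int.fract ((2 : ℝ) ^ l * x i)⌋ < 2 ^ ρ
          rw [Int.floor_lt]
          push_cast
          have : (0 : ℝ) < 2 ^ ρ := by positivity
          nlinarith
        constructor
        · exact_mod_cast g0
        · have : cel ρ (frP l x) i ≤ 2 ^ ρ - 1 := by omega
          exact_mod_cast this
      have ha := hb (X a)
      have hb' := hb (X b)
      rw [abs_le]
      constructor <;> linarith)
  have h2 : mass (lwP μ X l ω) = 1 := cw_sum μ _ hμ ω h0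
  rw [h2, sub_add_cancel, Real.logb_pow, Real.logb_self_eq_one (by norm_num)] at h1
  refine h1.trans (le_of_eq ?_)
  ring

/-- means of local entropies against measurable weights -/
theorem sum_eLP (μ : Ω → ℝ) (hμ : ∀ ω, 0 ≤ μ ω) (X : Ω → Fin p → ℝ) (ρ l : ℕ) (g : Ω → ℝ)
    (hg0 : ∀ ω, 0 ≤ g ω) (hg : ∀ ω ω', cel l (X ω) = cel l (X ω') → g ω = g ω') :
    ∑ ω, μ ω * (g ω * eLP μ X ρ l ω) =
      CH (fun ω => g ω * μ ω) (fun ω => cel (l + ρ) (X ω)) (fun ω => cel l (X ω)) := by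
  rw [CH_disint (fun ω => g ω * μ ω) (fun ω => mul_nonneg (hg0 ω) (hμ ω))]
  refine Finset.sum_congr rfl fun ω _ => ?_
  by_cases h : g ω = 0
  · rw [h]; ring
  rw [cw_mul μ g _ hg ω h, eLP_eq]
  ring

theorem sloP_step (μ : Ω → ℝ) (hμ : ∀ ω, 0 ≤ μ ω) (hm : mass μ = 1) (X : Ω → Fin p → ℝ)
    (ρ l : ℕ) : ∑ ω, μ ω * (eLP μ X ρ l ω * eLP μ X ρ l ω) - (p : ℝ) ^ 2 * ρ ≤
      ∑ ω, μ ω * (eLP μ X ρ l ω * eLP μ X ρ (l + 1) ω) := by
  set g : Ω → ℝ := fun ω => eLP μ X ρ l ω with hg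
  set ν : Ω → ℝ := fun ω => g ω * μ ω with hν
  have hg0 : ∀ ω, 0 ≤ g ω := fun ω => eLP_nonneg μ hμ X ρ l ω
  have hν0 : ∀ ω, 0 ≤ ν ω := fun ω => mul_nonneg (hg0 ω) (hμ ω)
  have hgl : ∀ ω ω', cel l (X ω) = cel l (X ω') → g ω = g ω' := fun ω ω' h => eLP_congr μ X ρ l h
  rw [sum_eLP μ hμ X ρ l g hg0 hgl,
    sum_eLP μ hμ X ρ (l + 1) g hg0 (fun ω ω' h => hgl ω ω' (cel_step l h))]
  have h1 : CH ν (fun ω => cel (l + ρ) (X ω)) (fun ω => cel l (X ω)) ≤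
      CH ν (fun ω => cel (l + 1 + ρ) (X ω)) (fun ω => cel l (X ω)) := by
    apply ch_mono ν hν0
    intro ω ω' _ _ h _
    have e : l + 1 + ρ = (l + ρ) + 1 := by ring
    rw [e] at h
    exact cel_step (l + ρ) h
  have h2 := ch_chain ν (fun ω => cel (l + 1) (X ω)) (fun ω => cel (l + 1 + ρ) (X ω))
    (fun ω => cel l (X ω))
  have hn : ∀ (k : ℕ) (ω ω' : Ω), cel (l + 1 + k) (X ω) = cel (l + 1 + k) (X ω') →
      cel (l + 1) (X ω) = cel (l + 1) (X ω') := by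
    intro k
    induction k with
    | zero => intro ω ω' h; exact h
    | succ k ih => intro ω ω' h; exact ih ω ω' (cel_step (l + 1 + k) h)
  have h3 : CH ν (fun ω => (cel (l + 1) (X ω), cel (l + 1 + ρ) (X ω))) (fun ω => cel l (X ω)) =
      CH ν (fun ω => cel (l + 1 + ρ) (X ω)) (fun ω => cel l (X ω)) := by
    apply ch_congr_left
    intro ω ω' _ _ _
    rw [Prod.mk.injEq]
    exact ⟨fun h => h.2, fun h => ⟨hn ρ ω ω' h, h⟩⟩
  have h4 : CH ν (fun ω => cel (l + 1 + ρ) (X ω)) (fun ω => (cel (l + 1) (X ω), cel l (X ω))) =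
      CH ν (fun ω => cel (l + 1 + ρ) (X ω)) (fun ω => cel (l + 1) (X ω)) := by
    apply ch_congr_right
    intro ω ω' _ _
    rw [Prod.mk.injEq]
    exact ⟨fun h => h.1, fun h => ⟨h, cel_step l h⟩⟩
  have h5 := st_E3.2 Ω (Fin p → ℤ) p ν (fun ω => cel (l + 1) (X ω)) (fun ω => cel l (X ω)) 1 hν0
    zero_le_one (fun a b _ _ h i => by
      have e : ⌊(2 : ℝ) ^ l * X a i⌋ = ⌊(2 : ℝ) ^ l * X b i⌋ := congrFun h i
      have ha := floor_two (X a i) l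
      have hb := floor_two (X b i) l
      have : |cel (l + 1) (X a) i - cel (l + 1) (X b) i| ≤ 1 := by
        show |⌊(2 : ℝ) ^ (l + 1) * X a i⌋ - ⌊(2 : ℝ) ^ (l + 1) * X b i⌋| ≤ 1
        rw [abs_le]
        constructor <;> omega
      exact_mod_cast this)
  have h6 : mass ν ≤ p * ρ := by
    have h7 : mass ν ≤ ∑ ω, (p : ℝ) * ρ * μ ω := by
      refine Finset.sum_le_sum fun ω _ => ?_
      by_cases h0 : μ ω = 0
      · rw [hν]; simp [h0]
      · exact mul_le_mul_of_nonneg_right (eLP_le μ hμ X ρ l ω h0) (hμ ω)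
    rw [← Finset.mul_sum] at h7
    have : ∑ ω, μ ω = 1 := hm
    rw [this, mul_one] at h7
    exact h7
  have h8 : Real.logb 2 ((1 : ℝ) + 1) = 1 := by
    rw [one_add_one_eq_two, Real.logb_self_eq_one (by norm_num)]
  rw [h8, mul_one] at h5
  have h9 := mul_le_mul_of_nonneg_left h6 (Nat.cast_nonneg (α := ℝ) p)
  rw [h3, h4] at h2
  have h10 : (p : ℝ) ^ 2 * ρ = p * (p * ρ) := by ring
  rw [h10]
  have h11 : mass ν * (p : ℝ) = p * mass ν := mul_comm _ _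
  linarith

end slo

theorem st_SLOP : ST_SLOP := by
  intro p Ω _ μ X hμ hm ρ M
  set A : ℕ → ℝ := fun l => ∑ ω, μ ω * (eLP μ X ρ l ω * eLP μ X ρ l ω) with hA
  have h1 : ∀ l, ∑ ω, μ ω * (eLP μ X ρ (l + 1) ω - eLP μ X ρ l ω) ^ 2 ≤
      A (l + 1) - A l + 2 * p ^ 2 * ρ := by
    intro l
    have h2 := sloP_step μ hμ hm X ρ l
    have h3 : ∑ ω, μ ω * (eLP μ X ρ (l + 1) ω - eLP μ X ρ l ω) ^ 2 = A (l + 1) + A l -
        2 * ∑ ω, μ ω * (eLP μ X ρ l ω * eLP μ X ρ (l + 1) ω) := by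
      rw [hA, Finset.mul_sum, ← Finset.sum_add_distrib, ← Finset.sum_sub_distrib]
      refine Finset.sum_congr rfl fun ω _ => ?_
      ring
    have h4 : A l = ∑ ω, μ ω * (eLP μ X ρ l ω * eLP μ X ρ l ω) := rfl
    linarith
  refine (Finset.sum_le_sum fun l _ => h1 l).trans ?_
  rw [Finset.sum_add_distrib, Finset.sum_range_sub, Finset.sum_const, Finset.card_range,
    nsmul_eq_mul]
  have h5 : 0 ≤ A 0 := Finset.sum_nonneg fun ω _ => mul_nonneg (hμ ω) (mul_self_nonneg _)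
  have h6 : A M ≤ (p : ℝ) ^ 2 * (ρ : ℝ) ^ 2 := by
    have h7 : A M ≤ ∑ ω, (p : ℝ) ^ 2 * (ρ : ℝ) ^ 2 * μ ω := by
      refine Finset.sum_le_sum fun ω _ => ?_
      by_cases h0 : μ ω = 0
      · simp [h0]
      · have a0 := eLP_nonneg μ hμ X ρ M ω
        have a1 := eLP_le μ hμ X ρ M ω h0
        have a2 : eLP μ X ρ M ω * eLP μ X ρ M ω ≤ p * ρ * (p * ρ) :=
          mul_le_mul a1 a1 a0 (a0.trans a1)
        have := mul_le_mul_of_nonneg_left a2 (hμ ω)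
        refine this.trans (le_of_eq ?_)
        ring
    rw [← Finset.mul_sum] at h7
    have : ∑ ω, μ ω = 1 := hm
    rw [this, mul_one] at h7
    exact h7
  nlinarith

end Pool.Agent.Helper46.WP
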